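import Mathlib
import Pool.Agent.V11254.RegOpen

/-!
# Cohen forcings for Fraisse classes need not be equivalent

For every set `X` of size at least `ℵ₂`, adding a generic triangle-free graph on `X` with finite
conditions is not forcing equivalent to adding `X` Cohen reals.
-/

set_option autoImplicit false

namespace Pool.Agent.Results.MP_01c350_lc.TriangleFree

open FirstOrder FirstOrder.Language FirstOrder.Language.Structure CategoryTheory
open Pool.Agent.V11254.RegOpen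

/-- Strong Fraisse classes of finite structures in a relational language: closed under
isomorphisms and substructures, with joint embedding and strong amalgamation. -/
structure IsStrongFraisse {L : FirstOrder.Language.{0, 0}} (K : Set (Bundled.{0} L.Structure)) : Prop where
  finite : ∀ M ∈ K, Finite M
  iso : ∀ M ∈ K, ∀ N : Bundled.{0} L.Structure, Nonempty (M ≃[L] N) → N ∈ K
  sub : ∀ M ∈ K, ∀ S : L.Substructure M, (⟨S, inferInstance⟩ : Bundled.{0} L.Structure) ∈ K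
  jep : ∀ M ∈ K, ∀ N ∈ K, ∃ D ∈ K, Nonempty (M ↪[L] D) ∧ Nonempty (N ↪[L] D)
  sap : ∀ A ∈ K, ∀ B ∈ K, ∀ C ∈ K, ∀ (f : A ↪[L] B) (g : A ↪[L] C),
    ∃ D ∈ K, ∃ (f' : B ↪[L] D) (g' : C ↪[L] D), f'.comp f = g'.comp g ∧
      Set.range f' ∩ Set.range g' = Set.range (f'.comp f)

/-- Literals: atomic formulas and their negations. -/
def IsLiteral {L : FirstOrder.Language.{0, 0}} {n : ℕ} (ψ : L.Formula (Fin n)) : Prop :=
  BoundedFormula.IsAtomic ψ ∨ ∃ θ : L.Formula (Fin n), BoundedFormula.IsAtomic θ ∧ ψ = θ.not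

/-- Trivial classes: each literal has a constant value on all non-redundant tuples of members of
the class. -/
def IsTrivial {L : FirstOrder.Language.{0, 0}} (K : Set (Bundled.{0} L.Structure)) : Prop :=
  ∀ (n : ℕ) (ψ : L.Formula (Fin n)), IsLiteral ψ →
    (∀ A ∈ K, ∀ v : Fin n → A, Function.Injective v → ψ.Realize v) ∨
    (∀ A ∈ K, ∀ v : Fin n → A, Function.Injective v → ¬ ψ.Realize v)

/-- `K` has at most `|X|` isomorphism types: some family indexed by `X` meets all of them. -/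
def AtMostTypes {L : FirstOrder.Language.{0, 0}} (K : Set (Bundled.{0} L.Structure)) (X : Type) : Prop :=
  ∃ f : X → Bundled.{0} L.Structure, ∀ A ∈ K, ∃ x, Nonempty (A ≃[L] f x)

/-- Conditions of `Cohen_X(K)`: structures in `K` whose underlying set is a finite subset of
`X`. -/
structure Cohen {L : FirstOrder.Language.{0, 0}} (K : Set (Bundled.{0} L.Structure)) (X : Type) where
  dom : Finset X
  str : L.Structure dom
  mem : (⟨dom, str⟩ : Bundled.{0} L.Structure) ∈ K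

variable {L : FirstOrder.Language.{0, 0}} {K : Set (Bundled.{0} L.Structure)} {X : Type}

/-- `p ≤ q` (`p` is stronger than `q`): `q` is a substructure of `p`. As `L` is relational this
means that the underlying set of `q` is contained in that of `p` and the relations agree on it. -/
instance : LE (Cohen K X) where
  le p q := ∃ h : q.dom ⊆ p.dom, ∀ (n : ℕ) (R : L.Relations n) (xs : Fin n → q.dom),
    @RelMap L q.dom q.str n R xs ↔ @RelMap L p.dom p.str n R fun i => ⟨(xs i).1, h (xs i).2⟩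

instance : Preorder (Cohen K X) where
  le_refl p := ⟨subset_rfl, fun _ _ _ => Iff.rfl⟩
  le_trans p q r := fun ⟨h1, h2⟩ ⟨h3, h4⟩ => ⟨h3.trans h1, fun n R xs => (h4 n R xs).trans (h2 n R _)⟩

/-- The two classes violate the conjecture on `X`. -/
def Counterexample (X : Type) : Prop :=
  ∃ (L₀ L₁ : FirstOrder.Language.{0, 0}) (_ : L₀.IsRelational) (_ : L₁.IsRelational)
    (K₀ : Set (Bundled.{0} L₀.Structure)) (K₁ : Set (Bundled.{0} L₁.Structure)),
    IsStrongFraisse K₀ ∧ IsStrongFraisse K₁ ∧ ¬ IsTrivial K₀ ∧ ¬ IsTrivial K₁ ∧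
    AtMostTypes K₀ X ∧ AtMostTypes K₁ X ∧ IsEmpty (RO (Cohen K₀ X) ≃o RO (Cohen K₁ X))

/-! ### General facts -/

/-- structure pulled back along a map -/
@[reducible] def pull [L.IsRelational] {A B : Type} (f : A → B) (s : L.Structure B) :
    L.Structure A where
  funMap {n} g _ := isEmptyElim g
  RelMap R xs := @RelMap L B s _ R (f ∘ xs)

theorem pull_mem [L.IsRelational] (hK : IsStrongFraisse K) {A : Type} {B : Bundled.{0} L.Structure}
    (hB : B ∈ K) (f : A → B) (hf : Function.Injective f) :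
    (⟨A, pull f B.str⟩ : Bundled.{0} L.Structure) ∈ K := by
  let : L.Structure A := pull f B.str
  let e : A ↪[L] B := ⟨⟨f, hf⟩, fun {n} g _ => isEmptyElim g,
    fun _ _ => Iff.rfl⟩
  exact hK.iso _ (hK.sub B hB e.toHom.range) ⟨A, pull f B.str⟩ ⟨e.equivRange.symm⟩

namespace Cohen

/-- the relations of a condition -/
def rel (p : Cohen K X) {n : ℕ} (R : L.Relations n) (xs : Fin n → X) : Prop :=
  ∃ h : ∀ i, xs i ∈ p.dom, @RelMap L p.dom p.str n R fun i => ⟨xs i, h i⟩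

theorem le_iff {p q : Cohen K X} : p ≤ q ↔ q.dom ⊆ p.dom ∧ ∀ (n : ℕ) (R : L.Relations n)
    (xs : Fin n → X), (∀ i, xs i ∈ q.dom) → (q.rel R xs ↔ p.rel R xs) := by
  constructor
  · rintro ⟨h1, h2⟩
    refine ⟨h1, fun n R xs hxs => ?_⟩
    have := h2 n R fun i => ⟨xs i, hxs i⟩
    constructor
    · rintro ⟨h, h'⟩
      exact ⟨fun i => h1 (hxs i), this.1 h'⟩
    · rintro ⟨h, h'⟩
      exact ⟨hxs, this.2 h'⟩
  · rintro ⟨h1, h2⟩
    refine ⟨h1, fun n R xs => ?_⟩
    have := h2 n R (fun i => (xs i).1) fun i => (xs i).2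
    constructor
    · intro h
      exact (this.1 ⟨fun i => (xs i).2, h⟩).2
    · intro h
      exact (this.2 ⟨fun i => h1 (xs i).2, h⟩).2

theorem rel_mem {p : Cohen K X} {n : ℕ} {R : L.Relations n} {xs : Fin n → X} (h : p.rel R xs) :
    ∀ i, xs i ∈ p.dom := h.1

/-- condition obtained by pulling back along an injection -/
def mkPull [L.IsRelational] (hK : IsStrongFraisse K) (D : Finset X) {B : Bundled.{0} L.Structure}
    (hB : B ∈ K) (f : D → B) (hf : Function.Injective f) : Cohen K X :=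
  ⟨D, pull f B.str, pull_mem hK hB f hf⟩

open Classical in
/-- restriction -/
noncomputable def res [L.IsRelational] (hK : IsStrongFraisse K) (S : Set X) (p : Cohen K X) :
    Cohen K X :=
  mkPull hK (p.dom.filter (· ∈ S)) p.mem (fun x => (⟨x.1, (Finset.mem_filter.1 x.2).1⟩ : p.dom))
    (fun x y h => Subtype.ext (Subtype.mk.inj h))

open Classical in
theorem res_rel [L.IsRelational] (hK : IsStrongFraisse K) (S : Set X) (p : Cohen K X) {n : ℕ}
    (R : L.Relations n) (xs : Fin n → X) : (res hK S p).rel R xs ↔ (∀ i, xs i ∈ S) ∧ p.rel R xs := by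
  constructor
  · rintro ⟨h1, h2⟩
    have h3 : ∀ i, xs i ∈ p.dom.filter (· ∈ S) := h1
    exact ⟨fun i => (Finset.mem_filter.1 (h3 i)).2, fun i => (Finset.mem_filter.1 (h3 i)).1, h2⟩
  · rintro ⟨h1, h2, h3⟩
    exact ⟨fun i => Finset.mem_filter.2 ⟨h2 i, h1 i⟩, h3⟩

open Classical in
theorem mem_res_dom [L.IsRelational] (hK : IsStrongFraisse K) (S : Set X) (p : Cohen K X) {x : X} :
    x ∈ (res hK S p).dom ↔ x ∈ p.dom ∧ x ∈ S := Finset.mem_filter

theorem amalg [L.IsRelational] (hK : IsStrongFraisse K) (S : Set X) (p q : Cohen K X)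
    (hq : (q.dom : Set X) ⊆ S) (h : q ≤ res hK S p) : ∃ r : Cohen K X, r ≤ p ∧ r ≤ q := by
  classical
  obtain ⟨h1, h2⟩ := le_iff.1 h
  let sA : L.Structure (res hK S p).dom := (res hK S p).str
  let sB : L.Structure p.dom := p.str
  let sC : L.Structure q.dom := q.str
  have hA1 : ∀ x ∈ (res hK S p).dom, x ∈ p.dom := fun x hx => ((mem_res_dom hK S p).1 hx).1
  let f : (res hK S p).dom ↪[L] p.dom := ⟨⟨fun x => ⟨x.1, hA1 x.1 x.2⟩, fun x y h => Subtype.ext (Subtype.mk.inj h)⟩,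
    fun {n} g _ => isEmptyElim g, fun _ _ => Iff.rfl⟩
  let g : (res hK S p).dom ↪[L] q.dom := ⟨⟨fun x => ⟨x.1, h1 x.2⟩, fun x y h => Subtype.ext (Subtype.mk.inj h)⟩,
    fun {n} g _ => isEmptyElim g, fun {n} R xs => by
      have := h2 n R (fun i => (xs i).1) (fun i => (xs i).2)
      constructor
      · intro h3
        exact (this.2 ⟨fun i => h1 (xs i).2, h3⟩).2
      · intro h3
        exact (this.1 ⟨fun i => (xs i).2, h3⟩).2⟩
  obtain ⟨D, hD, f', g', e1, e2⟩ := hK.sap ⟨_, sA⟩ (res hK S p).mem ⟨_, sB⟩ p.mem ⟨_, sC⟩ q.mem f g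
  have key : ∀ x (hx : x ∈ p.dom) (hx' : x ∈ q.dom), f' ⟨x, hx⟩ = g' ⟨x, hx'⟩ := by
    intro x hx hx'
    have hxA : x ∈ (res hK S p).dom := (mem_res_dom hK S p).2 ⟨hx, hq hx'⟩
    exact DFunLike.congr_fun e1 (⟨x, hxA⟩ : (res hK S p).dom)
  have key2 : ∀ x (hx : x ∈ p.dom) y (hy : y ∈ q.dom), f' ⟨x, hx⟩ = g' ⟨y, hy⟩ → x = y := by
    intro x hx y hy hxy
    have : f' ⟨x, hx⟩ ∈ Set.range (f'.comp f) := by
      rw [← e2]
      exact ⟨⟨_, rfl⟩, ⟨_, hxy.symm⟩⟩
    obtain ⟨z, hz⟩ := this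
    have h3 : f' (f z) = f' ⟨x, hx⟩ := hz
    have h4 : f z = ⟨x, hx⟩ := f'.injective h3
    have h5 : g' (g z) = g' ⟨y, hy⟩ := by
      rw [← hxy, ← h3]
      exact (DFunLike.congr_fun e1 z).symm
    have h6 : g z = ⟨y, hy⟩ := g'.injective h5
    have h7 : z.1 = x := congrArg Subtype.val h4
    have h8 : z.1 = y := congrArg Subtype.val h6
    exact h7.symm.trans h8
  let H : (p.dom ∪ q.dom : Finset X) → D := fun x =>
    if hx : x.1 ∈ p.dom then f' ⟨x.1, hx⟩ else g' ⟨x.1, (Finset.mem_union.1 x.2).resolve_left hx⟩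
  have H1 : ∀ (x : (p.dom ∪ q.dom : Finset X)) (hx : x.1 ∈ p.dom), H x = f' ⟨x.1, hx⟩ :=
    fun x hx => dif_pos hx
  have H2 : ∀ (x : (p.dom ∪ q.dom : Finset X)) (hx : x.1 ∈ q.dom), H x = g' ⟨x.1, hx⟩ := by
    intro x hx
    by_cases hx' : x.1 ∈ p.dom
    · rw [H1 x hx', key _ hx' hx]
    · exact dif_neg hx'
  have Hinj : Function.Injective H := by
    intro x y hxy
    by_cases hx : x.1 ∈ p.dom
    · by_cases hy : y.1 ∈ p.dom
      · rw [H1 x hx, H1 y hy] at hxy
        have := f'.injective hxy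
        exact Subtype.ext (Subtype.mk.inj this)
      · have hy' := (Finset.mem_union.1 y.2).resolve_left hy
        rw [H1 x hx, H2 y hy'] at hxy
        exact Subtype.ext (key2 _ _ _ _ hxy)
    · have hx' := (Finset.mem_union.1 x.2).resolve_left hx
      by_cases hy : y.1 ∈ p.dom
      · rw [H2 x hx', H1 y hy] at hxy
        exact Subtype.ext (key2 _ _ _ _ hxy.symm).symm
      · have hy' := (Finset.mem_union.1 y.2).resolve_left hy
        rw [H2 x hx', H2 y hy'] at hxy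
        have := g'.injective hxy
        exact Subtype.ext (Subtype.mk.inj this)
  refine ⟨mkPull hK (p.dom ∪ q.dom) hD H Hinj, ?_, ?_⟩
  · refine ⟨Finset.subset_union_left, fun n R xs => ?_⟩
    have : (H ∘ fun i => ⟨(xs i).1, Finset.subset_union_left (xs i).2⟩) = f' ∘ xs := by
      funext i
      exact H1 _ (xs i).2
    show _ ↔ RelMap R (H ∘ fun i => ⟨(xs i).1, _⟩)
    rw [this]
    exact (f'.map_rel' R xs).symm
  · refine ⟨Finset.subset_union_right, fun n R xs => ?_⟩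
    have : (H ∘ fun i => ⟨(xs i).1, Finset.subset_union_right (xs i).2⟩) = g' ∘ xs := by
      funext i
      exact H2 _ (xs i).2
    show _ ↔ RelMap R (H ∘ fun i => ⟨(xs i).1, _⟩)
    rw [this]
    exact (g'.map_rel' R xs).symm

theorem finite_structure [L.IsRelational] [Finite (Σ n, L.Relations n)] (A : Type) [Finite A] :
    Finite (L.Structure A) := by
  let Φ : L.Structure A → ((Σ R : (Σ n, L.Relations n), (Fin R.1 → A)) → Prop) :=
    fun s x => @RelMap L A s _ x.1.2 x.2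
  refine Finite.of_injective Φ ?_
  intro s t h
  refine Structure.ext ?_ ?_
  · funext n g
    exact isEmptyElim g
  · funext n R xs
    exact congrFun h ⟨⟨n, R⟩, xs⟩

theorem countable_sub [L.IsRelational] [Finite (Σ n, L.Relations n)] (S : Set X)
    (hS : S.Countable) : {p : Cohen K X | (p.dom : Set X) ⊆ S}.Countable := by
  have h1 : {D : Finset X | (D : Set X) ⊆ S}.Countable := by
    have := (Set.countable_ofPred_finite_subset hS).preimage (f := fun D : Finset X => (D : Set X))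
      Finset.coe_injective
    refine this.mono fun D (hD : (D : Set X) ⊆ S) => ?_
    exact (⟨D.finite_toSet, hD⟩ : (D : Set X).Finite ∧ (D : Set X) ⊆ S)
  have h2 : {p : Cohen K X | (p.dom : Set X) ⊆ S} ⊆
      ⋃ D ∈ {D : Finset X | (D : Set X) ⊆ S}, {p : Cohen K X | p.dom = D} := by
    intro p hp
    exact Set.mem_biUnion (x := p.dom) hp rfl
  refine (h1.biUnion fun D _ => ?_).mono h2
  have h3 : {p : Cohen K X | p.dom = D} ⊆ Set.range
      (fun s : {s : L.Structure D // (⟨D, s⟩ : Bundled.{0} L.Structure) ∈ K} =>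
        (⟨D, s.1, s.2⟩ : Cohen K X)) := by
    rintro ⟨D', s, hs⟩ h
    have h : D' = D := h
    subst h
    exact ⟨⟨s, hs⟩, rfl⟩
  have : Finite (L.Structure D) := finite_structure D
  exact (Set.countable_range _).mono h3

/-- the support structure of the Cohen forcing of a strong Fraisse class -/
noncomputable def supp [L.IsRelational] [Finite (Σ n, L.Relations n)] (hK : IsStrongFraisse K)
    (X : Type) : SuppStr (Cohen K X) X where
  dom p := p.dom
  res := res hK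
  fin p := p.dom.finite_toSet
  dom_res S p := fun x hx => by
    have := (mem_res_dom hK S p).1 hx
    exact ⟨this.2, this.1⟩
  le_res S p := le_iff.2 ⟨fun x hx => ((mem_res_dom hK S p).1 hx).1, fun n R xs hxs => by
    rw [res_rel]
    exact ⟨fun h => h.2, fun h => ⟨fun i => ((mem_res_dom hK S p).1 (hxs i)).2, h⟩⟩⟩
  res_mono S p q h := by
    obtain ⟨h1, h2⟩ := le_iff.1 h
    refine le_iff.2 ⟨fun x hx => ?_, fun n R xs hxs => ?_⟩
    · have := (mem_res_dom hK S q).1 hx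
      exact (mem_res_dom hK S p).2 ⟨h1 this.1, this.2⟩
    · rw [res_rel, res_rel, h2 n R xs fun i => ((mem_res_dom hK S q).1 (hxs i)).1]
  res_le S p h := le_iff.2 ⟨fun x hx => (mem_res_dom hK S p).2 ⟨hx, h hx⟩, fun n R xs hxs => by
    rw [res_rel]
    exact ⟨fun h' => ⟨fun i => h (hxs i), h'⟩, fun h' => h'.2⟩⟩
  amalg S p q h1 h2 := amalg hK S p q h1 h2
  countable S hS := countable_sub S hS

end Cohen

/-! ### Free amalgams -/

section free
set_option linter.unusedSectionVars false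
set_option linter.unusedVariables false
variable [L.IsRelational] {A B C : Type} [sA : L.Structure A] [sB : L.Structure B]
  [sC : L.Structure C]

/-- the underlying set of the free amalgam -/
def FA (f : A → B) (g : A → C) : Type := B ⊕ {c : C // ¬ ∃ a, g a = c}

variable (f : A ↪[L] B) (g : A ↪[L] C)

def inB : B → FA f g := Sum.inl

open Classical in
noncomputable def inC (c : C) : FA f g :=
  if h : ∃ a, g a = c then Sum.inl (f h.choose) else Sum.inr ⟨c, h⟩

theorem inB_inj : Function.Injective (inB f g) := Sum.inl_injective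

theorem inC_g (a : A) : inC f g (g a) = inB f g (f a) := by
  have h : ∃ a', g a' = g a := ⟨a, rfl⟩
  have e : inC f g (g a) = Sum.inl (f h.choose) := dif_pos h
  rw [e, g.injective h.choose_spec]
  rfl

theorem inC_not {c : C} (h : ¬ ∃ a, g a = c) : inC f g c = Sum.inr ⟨c, h⟩ := dif_neg h

theorem inB_eq_inC {b : B} {c : C} (h : inB f g b = inC f g c) : ∃ a, f a = b ∧ g a = c := by
  by_cases hc : ∃ a, g a = c
  · obtain ⟨a, rfl⟩ := hc
    rw [inC_g] at h
    exact ⟨a, (inB_inj f g h).symm, rfl⟩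
  · rw [inC_not f g hc] at h
    exact absurd h (by simp [inB])

theorem inC_inj : Function.Injective (inC f g) := by
  intro c c' h
  by_cases hc : ∃ a, g a = c
  · obtain ⟨a, rfl⟩ := hc
    rw [inC_g] at h
    obtain ⟨a', h1, h2⟩ := inB_eq_inC f g h
    rw [← h2, f.injective h1]
  · by_cases hc' : ∃ a, g a = c'
    · obtain ⟨a, rfl⟩ := hc'
      rw [inC_g] at h
      obtain ⟨a', h1, h2⟩ := inB_eq_inC f g h.symm
      rw [← h2, f.injective h1]
    · rw [inC_not f g hc, inC_not f g hc'] at h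
      exact congrArg Subtype.val (Sum.inr_injective h)

theorem cover (x : FA f g) : (∃ b, inB f g b = x) ∨ ∃ c, inC f g c = x := by
  rcases x with b | c
  · exact Or.inl ⟨b, rfl⟩
  · exact Or.inr ⟨c.1, inC_not f g c.2⟩

/-- the free amalgam -/
@[reducible] def faStr : L.Structure (FA f g) where
  funMap h _ := isEmptyElim h
  RelMap R xs := (∃ v, inB f g ∘ v = xs ∧ RelMap R v) ∨ ∃ v, inC f g ∘ v = xs ∧ RelMap R v

theorem faB {n : ℕ} (R : L.Relations n) (v : Fin n → B) :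
    @RelMap L _ (faStr f g) n R (inB f g ∘ v) ↔ RelMap R v := by
  constructor
  · rintro (⟨u, h1, h2⟩ | ⟨u, h1, h2⟩)
    · have : u = v := by
        funext i; exact inB_inj f g (congrFun h1 i)
      rwa [← this]
    · have : ∀ i, ∃ a, f a = v i ∧ g a = u i := fun i => inB_eq_inC f g (congrFun h1 i).symm
      choose w hw1 hw2 using this
      have e1 : f ∘ w = v := funext hw1
      have e2 : g ∘ w = u := funext hw2
      rw [← e1]
      rw [← e2] at h2
      exact (f.map_rel' R w).2 ((g.map_rel' R w).1 h2)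
  · intro h
    exact Or.inl ⟨v, rfl, h⟩

theorem faC {n : ℕ} (R : L.Relations n) (v : Fin n → C) :
    @RelMap L _ (faStr f g) n R (inC f g ∘ v) ↔ RelMap R v := by
  constructor
  · rintro (⟨u, h1, h2⟩ | ⟨u, h1, h2⟩)
    · have : ∀ i, ∃ a, f a = u i ∧ g a = v i := fun i => inB_eq_inC f g (congrFun h1 i)
      choose w hw1 hw2 using this
      have e1 : f ∘ w = u := funext hw1
      have e2 : g ∘ w = v := funext hw2
      rw [← e2]
      rw [← e1] at h2
      exact (g.map_rel' R w).2 ((f.map_rel' R w).1 h2)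
    · have : u = v := by
        funext i; exact inC_inj f g (congrFun h1 i)
      rwa [← this]
  · intro h
    exact Or.inr ⟨v, rfl, h⟩

theorem fa_finite [Finite B] [Finite C] : Finite (FA f g) := by
  unfold FA; infer_instance

/-- The strong amalgamation property from membership of the free amalgam. -/
theorem sap_of_free (K : Set (Bundled.{0} L.Structure))
    (h : (⟨FA f g, faStr f g⟩ : Bundled.{0} L.Structure) ∈ K) :
    ∃ D ∈ K, ∃ (f' : B ↪[L] D) (g' : C ↪[L] D), f'.comp f = g'.comp g ∧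
      Set.range f' ∩ Set.range g' = Set.range (f'.comp f) := by
  let s : L.Structure (FA f g) := faStr f g
  let f' : B ↪[L] FA f g := ⟨⟨inB f g, inB_inj f g⟩, fun h _ => isEmptyElim h, fun R v => faB f g R v⟩
  let g' : C ↪[L] FA f g := ⟨⟨inC f g, inC_inj f g⟩, fun h _ => isEmptyElim h, fun R v => faC f g R v⟩
  refine ⟨⟨FA f g, s⟩, h, f', g', ?_, ?_⟩
  · ext a
    exact (inC_g f g a).symm
  · ext x
    constructor
    · rintro ⟨⟨b, hb⟩, ⟨c, hc⟩⟩
      obtain ⟨a, ha, _⟩ := inB_eq_inC f g (hb.trans hc.symm)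
      refine ⟨a, ?_⟩
      rw [← hb, ← ha]
      rfl
    · rintro ⟨a, rfl⟩
      exact ⟨⟨f a, rfl⟩, ⟨g a, inC_g f g a⟩⟩

end free

section generic
variable [L.IsRelational]

theorem strongFraisse_of (K : Set (Bundled.{0} L.Structure)) (h1 : ∀ M ∈ K, Finite M)
    (h2 : ∀ M ∈ K, ∀ N : Bundled.{0} L.Structure, Nonempty (N ↪[L] M) → N ∈ K)
    (h3 : ∀ A ∈ K, ∀ B ∈ K, ∀ C ∈ K, ∀ (f : A ↪[L] B) (g : A ↪[L] C),
      (⟨FA f g, faStr f g⟩ : Bundled.{0} L.Structure) ∈ K)
    (h4 : ∀ n, L.Relations n → 0 < n) : IsStrongFraisse K where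
  finite := h1
  iso M hM N := fun ⟨e⟩ => h2 M hM N ⟨e.symm.toEmbedding⟩
  sub M hM S := h2 M hM _ ⟨S.subtype⟩
  jep M hM N hN := by
    let sE : L.Structure Empty := pull Empty.elim M.str
    let f : Empty ↪[L] M := ⟨⟨Empty.elim, fun x => x.elim⟩, fun h _ => isEmptyElim h,
      fun {n} R v => (v ⟨0, h4 n R⟩).elim⟩
    let g : Empty ↪[L] N := ⟨⟨Empty.elim, fun x => x.elim⟩, fun h _ => isEmptyElim h,
      fun {n} R v => (v ⟨0, h4 n R⟩).elim⟩
    have hE : (⟨Empty, sE⟩ : Bundled.{0} L.Structure) ∈ K := h2 M hM _ ⟨f⟩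
    obtain ⟨D, hD, f', g', _, _⟩ := sap_of_free f g K (h3 ⟨Empty, sE⟩ hE M hM N hN f g)
    exact ⟨D, hD, ⟨f'⟩, ⟨g'⟩⟩
  sap A hA B hB C hC f g := sap_of_free f g K (h3 A hA B hB C hC f g)

omit [L.IsRelational] in
theorem not_trivial_of (K : Set (Bundled.{0} L.Structure)) {n : ℕ} (R : L.Relations n)
    (h1 : ∃ A ∈ K, ∃ v : Fin n → A, Function.Injective v ∧ RelMap R v)
    (h2 : ∃ A ∈ K, ∃ v : Fin n → A, Function.Injective v ∧ ¬ RelMap R v) : ¬ IsTrivial K := by
  intro h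
  let ψ : L.BoundedFormula (Fin n) 0 := R.boundedFormula fun i => Term.var (Sum.inl i)
  have hψ : ∀ (A : Bundled.{0} L.Structure) (v : Fin n → A), Formula.Realize ψ v ↔ RelMap R v := by
    intro A v
    unfold Formula.Realize
    rw [BoundedFormula.realize_rel]
    rfl
  obtain ⟨A, hA, v, hv, hv'⟩ := h1
  obtain ⟨B, hB, u, hu, hu'⟩ := h2
  rcases h n ψ (Or.inl (BoundedFormula.IsAtomic.rel R _)) with h3 | h3
  · exact hu' ((hψ B u).1 (h3 B hB u hu))
  · exact h3 A hA v hv ((hψ A v).2 hv')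

theorem atMost_of [Finite (Σ n, L.Relations n)] (K : Set (Bundled.{0} L.Structure))
    (h : ∀ M ∈ K, Finite M) (X : Type) [Infinite X] : AtMostTypes K X := by
  have hc : ∀ n, Finite (L.Structure (Fin n)) := fun n => Cohen.finite_structure (Fin n)
  have : Countable (Σ n : ℕ, L.Structure (Fin n)) := inferInstance
  obtain ⟨i, hi⟩ := exists_injective_nat (Σ n : ℕ, L.Structure (Fin n))
  let j : (Σ n : ℕ, L.Structure (Fin n)) → X := Infinite.natEmbedding X ∘ i
  have hj : Function.Injective j := (Infinite.natEmbedding X).injective.comp hi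
  let f : X → Bundled.{0} L.Structure := fun x =>
    open Classical in if h : ∃ y, j y = x then ⟨Fin h.choose.1, h.choose.2⟩ else
      ⟨Empty, ⟨fun g _ => isEmptyElim g, fun _ _ => False⟩⟩
  refine ⟨f, fun A hA => ?_⟩
  have := h A hA
  obtain ⟨n, ⟨e⟩⟩ := Finite.exists_equiv_fin A
  let s : L.Structure (Fin n) := pull e.symm A.str
  let y : (Σ n : ℕ, L.Structure (Fin n)) := ⟨n, s⟩
  have hy : ∃ y', j y' = j y := ⟨y, rfl⟩
  have h1 : f (j y) = ⟨Fin hy.choose.1, hy.choose.2⟩ := dif_pos hy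
  have h2 : hy.choose = y := hj hy.choose_spec
  rw [h2] at h1
  refine ⟨j y, ?_⟩
  rw [h1]
  refine ⟨⟨e, fun g _ => isEmptyElim g, fun {m} R v => ?_⟩⟩
  show RelMap R (e.symm ∘ (e ∘ v)) ↔ RelMap R v
  rw [← Function.comp_assoc, Equiv.symm_comp_self, Function.id_comp]

end generic

/-! ### Finite sets with a unary predicate -/

inductive UnaryRel : ℕ → Type
  | U : UnaryRel 1

/-- the language with one unary predicate -/
def LU : FirstOrder.Language.{0, 0} := ⟨fun _ => Empty, UnaryRel⟩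

instance : LU.IsRelational := fun _ => inferInstanceAs (IsEmpty Empty)

/-- all finite structures with one unary predicate -/
def KU : Set (Bundled.{0} LU.Structure) := {M | Finite M}

instance : Finite (Σ n, LU.Relations n) := by
  refine Finite.of_injective (fun _ => ()) ?_
  rintro ⟨_, ⟨⟩⟩ ⟨_, ⟨⟩⟩ _
  rfl

theorem KU_strong : IsStrongFraisse KU := by
  refine strongFraisse_of KU (fun M hM => hM) (fun M hM N hN => ?_)
    (fun A hA B hB C hC f g => ?_) (fun n R => ?_)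
  · obtain ⟨e⟩ := hN
    have : Finite M := hM
    exact Finite.of_injective e e.injective
  · have : Finite B := hB
    have : Finite C := hC
    exact fa_finite f g
  · cases R; omega

theorem KU_nontrivial : ¬ IsTrivial KU := by
  refine not_trivial_of KU (UnaryRel.U : LU.Relations 1) ?_ ?_
  · refine ⟨⟨Fin 1, ⟨fun g _ => isEmptyElim g, fun _ _ => True⟩⟩, inferInstanceAs (Finite (Fin 1)),
      fun i => i, fun _ _ h => h, trivial⟩
  · refine ⟨⟨Fin 1, ⟨fun g _ => isEmptyElim g, fun _ _ => False⟩⟩, inferInstanceAs (Finite (Fin 1)),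
      fun i => i, fun _ _ h => h, fun h => h⟩

theorem KU_compat {X : Type} (a b c : Cohen KU X) (hab : ∃ x, x ≤ a ∧ x ≤ b)
    (hac : ∃ x, x ≤ a ∧ x ≤ c) (hbc : ∃ x, x ≤ b ∧ x ≤ c) : ∃ x, x ≤ a ∧ x ≤ b ∧ x ≤ c := by
  classical
  have key : ∀ a b : Cohen KU X, (∃ x, x ≤ a ∧ x ≤ b) → ∀ (n : ℕ) (R : LU.Relations n)
      (xs : Fin n → X), (∀ i, xs i ∈ a.dom) → b.rel R xs → a.rel R xs := by
    rintro a b ⟨x, hxa, hxb⟩ n R xs hxs hb
    exact ((Cohen.le_iff.1 hxa).2 n R xs hxs).2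
      (((Cohen.le_iff.1 hxb).2 n R xs (Cohen.rel_mem hb)).1 hb)
  have hba : ∃ x, x ≤ b ∧ x ≤ a := by obtain ⟨x, h, h'⟩ := hab; exact ⟨x, h', h⟩
  have hca : ∃ x, x ≤ c ∧ x ≤ a := by obtain ⟨x, h, h'⟩ := hac; exact ⟨x, h', h⟩
  have hcb : ∃ x, x ≤ c ∧ x ≤ b := by obtain ⟨x, h, h'⟩ := hbc; exact ⟨x, h', h⟩
  let D : Finset X := a.dom ∪ (b.dom ∪ c.dom)
  let d : Cohen KU X := ⟨D, ⟨fun g _ => isEmptyElim g, fun R v =>
    a.rel R (fun i => (v i).1) ∨ b.rel R (fun i => (v i).1) ∨ c.rel R (fun i => (v i).1)⟩,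
    inferInstanceAs (Finite D)⟩
  have hd : ∀ (n : ℕ) (R : LU.Relations n) (xs : Fin n → X), (∀ i, xs i ∈ D) →
      (d.rel R xs ↔ a.rel R xs ∨ b.rel R xs ∨ c.rel R xs) := by
    intro n R xs hxs
    exact ⟨fun h => h.2, fun h => ⟨hxs, h⟩⟩
  have ha' : a.dom ⊆ D := Finset.subset_union_left
  have hb' : b.dom ⊆ D := Finset.subset_union_left.trans Finset.subset_union_right
  have hc' : c.dom ⊆ D := Finset.subset_union_right.trans Finset.subset_union_right
  refine ⟨d, ?_, ?_, ?_⟩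
  · refine Cohen.le_iff.2 ⟨ha', fun n R xs hxs => ?_⟩
    rw [hd n R xs fun i => ha' (hxs i)]
    constructor
    · exact Or.inl
    · rintro (h | h | h)
      · exact h
      · exact key a b hab n R xs hxs h
      · exact key a c hac n R xs hxs h
  · refine Cohen.le_iff.2 ⟨hb', fun n R xs hxs => ?_⟩
    rw [hd n R xs fun i => hb' (hxs i)]
    constructor
    · exact fun h => Or.inr (Or.inl h)
    · rintro (h | h | h)
      · exact key b a hba n R xs hxs h
      · exact h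
      · exact key b c hbc n R xs hxs h
  · refine Cohen.le_iff.2 ⟨hc', fun n R xs hxs => ?_⟩
    rw [hd n R xs fun i => hc' (hxs i)]
    constructor
    · exact fun h => Or.inr (Or.inr h)
    · rintro (h | h | h)
      · exact key c a hca n R xs hxs h
      · exact key c b hcb n R xs hxs h
      · exact h

/-! ### Triangle-free graphs -/

theorem fn2 {A B : Type} (f : A → B) (x y : A) : f ∘ ![x, y] = ![f x, f y] := by
  funext i; fin_cases i <;> rfl

theorem eta2 {A : Type} (v : Fin 2 → A) : v = ![v 0, v 1] := by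
  funext i; fin_cases i <;> rfl

/-- finite triangle-free graphs -/
def KT : Set (Bundled.{0} Language.graph.Structure) :=
  {M | Finite M ∧ (∀ x : M, ¬ RelMap adj ![x, x]) ∧
    (∀ x y : M, RelMap adj ![x, y] → RelMap adj ![y, x]) ∧
    ∀ x y z : M, RelMap adj ![x, y] → RelMap adj ![y, z] → ¬ RelMap adj ![x, z]}

instance : Finite (Σ n, Language.graph.Relations n) := by
  refine Finite.of_injective (fun _ => ()) ?_
  rintro ⟨_, ⟨⟩⟩ ⟨_, ⟨⟩⟩ _
  rfl

theorem KT_emb (M : Bundled.{0} Language.graph.Structure) (hM : M ∈ KT)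
    (N : Bundled.{0} Language.graph.Structure) (e : N ↪[Language.graph] M) : N ∈ KT := by
  obtain ⟨h1, h2, h3, h4⟩ := hM
  have key : ∀ x y : N, RelMap adj ![x, y] ↔ RelMap adj ![e x, e y] := by
    intro x y
    rw [← fn2]
    exact (e.map_rel' adj ![x, y]).symm
  refine ⟨Finite.of_injective e e.injective, fun x h => h2 _ ((key x x).1 h),
    fun x y h => (key y x).2 (h3 _ _ ((key x y).1 h)), fun x y z h h' h'' =>
    h4 _ _ _ ((key x y).1 h) ((key y z).1 h') ((key x z).1 h'')⟩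

theorem KT_strong : IsStrongFraisse KT := by
  refine strongFraisse_of KT (fun M hM => hM.1) (fun M hM N hN => ?_)
    (fun A hA B hB C hC f g => ?_) (fun n R => ?_)
  · obtain ⟨e⟩ := hN
    exact KT_emb M hM N e
  · obtain ⟨b1, b2, b3, b4⟩ := hB
    obtain ⟨c1, c2, c3, c4⟩ := hC
    let s : Language.graph.Structure (FA f g) := faStr f g
    have key : ∀ x y : FA f g, RelMap adj ![x, y] ↔
        (∃ b b', inB f g b = x ∧ inB f g b' = y ∧ RelMap adj ![b, b']) ∨
        (∃ c c', inC f g c = x ∧ inC f g c' = y ∧ RelMap adj ![c, c']) := by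
      intro x y
      constructor
      · rintro (⟨v, h1, h2⟩ | ⟨v, h1, h2⟩)
        · left
          rw [eta2 v] at h2
          exact ⟨v 0, v 1, congrFun h1 0, congrFun h1 1, h2⟩
        · right
          rw [eta2 v] at h2
          exact ⟨v 0, v 1, congrFun h1 0, congrFun h1 1, h2⟩
      · rintro (⟨b, b', rfl, rfl, h⟩ | ⟨c, c', rfl, rfl, h⟩)
        · exact Or.inl ⟨![b, b'], fn2 _ _ _, h⟩
        · exact Or.inr ⟨![c, c'], fn2 _ _ _, h⟩
    have kB : ∀ b b' : B, RelMap adj ![inB f g b, inB f g b'] ↔ RelMap adj ![b, b'] := by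
      intro b b'
      rw [← fn2]
      exact faB f g adj ![b, b']
    have kC : ∀ c c' : C, RelMap adj ![inC f g c, inC f g c'] ↔ RelMap adj ![c, c'] := by
      intro c c'
      rw [← fn2]
      exact faC f g adj ![c, c']
    refine ⟨fa_finite f g, ?_, ?_, ?_⟩
    · intro x h
      rcases cover f g x with ⟨b, rfl⟩ | ⟨c, rfl⟩
      · exact b2 b ((kB b b).1 h)
      · exact c2 c ((kC c c).1 h)
    · intro x y h
      rcases (key x y).1 h with ⟨b, b', rfl, rfl, h9⟩ | ⟨c, c', rfl, rfl, h9⟩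
      · exact (kB _ _).2 (b3 _ _ h9)
      · exact (kC _ _).2 (c3 _ _ h9)
    · intro x y z hxy hyz hxz
      have hB' : ∀ x : FA f g, (¬ ∃ b, inB f g b = x) → ∀ y, RelMap adj ![x, y] →
          ∃ c, inC f g c = y := by
        intro x hx y h
        rcases (key x y).1 h with ⟨b, b', h1, h2, h⟩ | ⟨c, c', h1, h2, h⟩
        · exact absurd ⟨b, h1⟩ hx
        · exact ⟨c', h2⟩
      have symm : ∀ x y : FA f g, RelMap adj ![x, y] → RelMap adj ![y, x] := by
        intro x y h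
        rcases (key x y).1 h with ⟨b, b', rfl, rfl, h9⟩ | ⟨c, c', rfl, rfl, h9⟩
        · exact (kB _ _).2 (b3 _ _ h9)
        · exact (kC _ _).2 (c3 _ _ h9)
      by_cases hx : ∃ b, inB f g b = x
      · by_cases hy : ∃ b, inB f g b = y
        · by_cases hz : ∃ b, inB f g b = z
          · obtain ⟨x, rfl⟩ := hx
            obtain ⟨y, rfl⟩ := hy
            obtain ⟨z, rfl⟩ := hz
            exact b4 x y z ((kB _ _).1 hxy) ((kB _ _).1 hyz) ((kB _ _).1 hxz)
          · obtain ⟨x, rfl⟩ := hB' z hz x (symm _ _ hxz)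
            obtain ⟨y, rfl⟩ := hB' z hz y (symm _ _ hyz)
            obtain ⟨z, rfl⟩ := (cover f g z).resolve_left hz
            exact c4 x y z ((kC _ _).1 hxy) ((kC _ _).1 hyz) ((kC _ _).1 hxz)
        · obtain ⟨x, rfl⟩ := hB' y hy x (symm _ _ hxy)
          obtain ⟨z, rfl⟩ := hB' y hy z hyz
          obtain ⟨y, rfl⟩ := (cover f g y).resolve_left hy
          exact c4 x y z ((kC _ _).1 hxy) ((kC _ _).1 hyz) ((kC _ _).1 hxz)
      · obtain ⟨y, rfl⟩ := hB' x hx y hxy
        obtain ⟨z, rfl⟩ := hB' x hx z hxz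
        obtain ⟨x, rfl⟩ := (cover f g x).resolve_left hx
        exact c4 x y z ((kC _ _).1 hxy) ((kC _ _).1 hyz) ((kC _ _).1 hxz)
  · cases R; omega

theorem fin2_lem : ∀ x y z : Fin 2, x ≠ y → y ≠ z → x ≠ z → False := by decide

theorem KT_nontrivial : ¬ IsTrivial KT := by
  refine not_trivial_of KT (adj : Language.graph.Relations 2) ?_ ?_
  · refine ⟨⟨Fin 2, ⟨fun g _ => isEmptyElim g, fun | .adj => fun v => v 0 ≠ v 1⟩⟩,
      ⟨inferInstanceAs (Finite (Fin 2)), ?_, ?_, ?_⟩, fun i => i, fun _ _ h => h, ?_⟩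
    · intro x h; exact h rfl
    · intro x y h; exact fun e => h e.symm
    · intro x y z h1 h2 h3
      exact fin2_lem x y z h1 h2 h3
    · show (0 : Fin 2) ≠ 1
      decide
  · refine ⟨⟨Fin 2, ⟨fun g _ => isEmptyElim g, fun _ _ => False⟩⟩,
      ⟨inferInstanceAs (Finite (Fin 2)), ?_, ?_, ?_⟩, fun i => i, fun _ _ h => h, fun h => h⟩
    · intro x h; exact h
    · intro x y h; exact h
    · intro x y z h1 h2 h3; exact h3

/-- adjacency in a condition -/
def E {X : Type} (p : Cohen KT X) (x y : X) : Prop := p.rel adj ![x, y]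

theorem E_dom {X : Type} {p : Cohen KT X} {x y : X} (h : E p x y) : x ∈ p.dom ∧ y ∈ p.dom :=
  ⟨Cohen.rel_mem h 0, Cohen.rel_mem h 1⟩

theorem E_iff {X : Type} (p : Cohen KT X) (x y : p.dom) :
    E p x y ↔ @RelMap _ p.dom p.str 2 adj ![x, y] := by
  have : ∀ h : ∀ i, ![(x : X), y] i ∈ p.dom, (fun i => ⟨![(x : X), y] i, h i⟩ : Fin 2 → p.dom) =
      ![x, y] := by
    intro h; funext i; fin_cases i <;> rfl
  constructor
  · rintro ⟨h, h'⟩
    rwa [this h] at h'
  · intro h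
    refine ⟨fun i => by fin_cases i; exacts [x.2, y.2], ?_⟩
    rwa [this]

theorem E_irrefl {X : Type} (p : Cohen KT X) (x : X) : ¬ E p x x := by
  intro h
  have hx := (E_dom h).1
  exact p.mem.2.1 ⟨x, hx⟩ ((E_iff p ⟨x, hx⟩ ⟨x, hx⟩).1 h)

theorem E_symm {X : Type} (p : Cohen KT X) {x y : X} (h : E p x y) : E p y x := by
  obtain ⟨hx, hy⟩ := E_dom h
  exact (E_iff p ⟨y, hy⟩ ⟨x, hx⟩).2 (p.mem.2.2.1 _ _ ((E_iff p ⟨x, hx⟩ ⟨y, hy⟩).1 h))

theorem E_tri {X : Type} (p : Cohen KT X) {x y z : X} (h1 : E p x y) (h2 : E p y z) :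
    ¬ E p x z := by
  intro h3
  obtain ⟨hx, hy⟩ := E_dom h1
  have hz := (E_dom h2).2
  exact p.mem.2.2.2 _ _ _ ((E_iff p ⟨x, hx⟩ ⟨y, hy⟩).1 h1) ((E_iff p ⟨y, hy⟩ ⟨z, hz⟩).1 h2)
    ((E_iff p ⟨x, hx⟩ ⟨z, hz⟩).1 h3)

theorem le_iff_E {X : Type} {p q : Cohen KT X} : p ≤ q ↔ q.dom ⊆ p.dom ∧
    ∀ x ∈ q.dom, ∀ y ∈ q.dom, (E q x y ↔ E p x y) := by
  rw [Cohen.le_iff]
  constructor
  · rintro ⟨h1, h2⟩
    refine ⟨h1, fun x hx y hy => h2 2 adj ![x, y] ?_⟩
    intro i; fin_cases i; exacts [hx, hy]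
  · rintro ⟨h1, h2⟩
    refine ⟨h1, ?_⟩
    rintro n ⟨⟩ xs hxs
    rw [eta2 xs]
    exact h2 _ (hxs 0) _ (hxs 1)

theorem E_res {X : Type} (S : Set X) (p : Cohen KT X) (x y : X) :
    E (Cohen.res KT_strong S p) x y ↔ (x ∈ S ∧ y ∈ S) ∧ E p x y := by
  unfold E
  rw [Cohen.res_rel]
  constructor
  · rintro ⟨h1, h2⟩
    exact ⟨⟨h1 0, h1 1⟩, h2⟩
  · rintro ⟨⟨h1, h2⟩, h3⟩
    exact ⟨fun i => by fin_cases i; exacts [h1, h2], h3⟩

/-- conditions from graphs -/
def mkG {X : Type} (D : Finset X) (F : X → X → Prop) (h1 : ∀ x, ¬ F x x)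
    (h2 : ∀ x y, F x y → F y x) (h3 : ∀ x y z, F x y → F y z → ¬ F x z) : Cohen KT X :=
  ⟨D, ⟨fun g _ => isEmptyElim g, fun | .adj => fun v => F (v 0) (v 1)⟩,
    ⟨inferInstanceAs (Finite D), fun x => h1 x, fun x y => h2 x y, fun x y z => h3 x y z⟩⟩

theorem E_mkG {X : Type} (D : Finset X) (F : X → X → Prop) (h1 : ∀ x, ¬ F x x)
    (h2 : ∀ x y, F x y → F y x) (h3 : ∀ x y z, F x y → F y z → ¬ F x z) (x y : X) :
    E (mkG D F h1 h2 h3) x y ↔ (x ∈ D ∧ y ∈ D) ∧ F x y := by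
  constructor
  · intro h
    exact ⟨E_dom h, h.2⟩
  · rintro ⟨⟨hx, hy⟩, h⟩
    exact ⟨fun i => by fin_cases i; exacts [hx, hy], h⟩

open Classical in
/-- The forcing with triangle-free graphs has the property used in the abstract theorem. -/
theorem KT_prop {X : Type} (y z : X) (hyz : y ≠ z) : ∃ p : Cohen KT X, ∀ r, r ≤ p →
    ∀ Y Z : Set X, y ∈ Y → y ∉ Z → z ∈ Z → z ∉ Y → (Y ∩ Z).Infinite →
    ∃ ry rz : Cohen KT X, ry ≤ Cohen.res KT_strong Y r ∧ (ry.dom : Set X) ⊆ Y ∧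
      rz ≤ Cohen.res KT_strong Z r ∧ (rz.dom : Set X) ⊆ Z ∧
      Cohen.res KT_strong Z ry ≤ Cohen.res KT_strong Y rz ∧ ¬ ∃ x, x ≤ ry ∧ x ≤ rz ∧ x ≤ p := by
  refine ⟨mkG {y, z} (fun u v => (u = y ∧ v = z) ∨ (u = z ∧ v = y)) ?_ ?_ ?_, ?_⟩
  · rintro x (⟨rfl, h⟩ | ⟨rfl, h⟩)
    · exact hyz h
    · exact hyz h.symm
  · rintro u v (⟨rfl, rfl⟩ | ⟨rfl, rfl⟩)
    · exact Or.inr ⟨rfl, rfl⟩
    · exact Or.inl ⟨rfl, rfl⟩
  · rintro u v t (⟨rfl, rfl⟩ | ⟨rfl, rfl⟩) (⟨h, rfl⟩ | ⟨h, rfl⟩) (⟨h1, h2⟩ | ⟨h1, h2⟩) <;>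
      first | exact hyz h | exact hyz h.symm | exact hyz h2 | exact hyz h2.symm | exact hyz h1 |
        exact hyz h1.symm
  intro r hr Y Z hyY hyZ hzZ hzY hinf
  obtain ⟨hr1, hr2⟩ := le_iff_E.1 hr
  have hyr : y ∈ r.dom := hr1 (by simp [mkG])
  have hzr : z ∈ r.dom := hr1 (by simp [mkG])
  obtain ⟨w, ⟨hwY, hwZ⟩, hwr⟩ := hinf.exists_notMem_finset r.dom
  have hwy : w ≠ y := fun e => hwr (e ▸ hyr)
  have hwz : w ≠ z := fun e => hwr (e ▸ hzr)
  have n1 : ∀ x, ¬ E r w x := fun x h => hwr (E_dom h).1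
  have n2 : ∀ x, ¬ E r x w := fun x h => hwr (E_dom h).2
  -- adding `w` joined to one point
  have build : ∀ (S : Set X) (y : X), y ∈ r.dom → w ≠ y → ∃ q : Cohen KT X,
      q.dom = insert w (r.dom.filter (· ∈ S)) ∧
      ∀ u v, E q u v ↔ (u ∈ insert w (r.dom.filter (· ∈ S)) ∧
        v ∈ insert w (r.dom.filter (· ∈ S))) ∧ (E r u v ∨ (u = w ∧ v = y) ∨ (u = y ∧ v = w)) := by
    intro S y hy hwy
    refine ⟨mkG (insert w (r.dom.filter (· ∈ S)))
      (fun u v => E r u v ∨ (u = w ∧ v = y) ∨ (u = y ∧ v = w)) ?_ ?_ ?_, rfl, ?_⟩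
    · rintro x (h | ⟨rfl, h⟩ | ⟨rfl, h⟩)
      · exact E_irrefl r x h
      · exact hwy h
      · exact hwy h.symm
    · rintro u v (h | ⟨rfl, rfl⟩ | ⟨rfl, rfl⟩)
      · exact Or.inl (E_symm r h)
      · exact Or.inr (Or.inr ⟨rfl, rfl⟩)
      · exact Or.inr (Or.inl ⟨rfl, rfl⟩)
    · rintro u v t (h | ⟨rfl, rfl⟩ | ⟨rfl, rfl⟩) (h' | ⟨h', rfl⟩ | ⟨h', rfl⟩) (h'' | ⟨h'', h3⟩ | ⟨h'', h3⟩)
      all_goals first
        | exact E_tri r h h' h''
        | (subst_vars; first
            | exact n1 _ h | exact n2 _ h | exact n1 _ h' | exact n2 _ h' | exact n1 _ h''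
            | exact n2 _ h'' | exact hwy rfl | exact hwy h' | exact hwy h'.symm | exact hwy h''
            | exact hwy h''.symm | exact hwy h3 | exact hwy h3.symm | exact E_irrefl r _ h
            | exact E_irrefl r _ h' | exact E_irrefl r _ h'')
    · intro u v
      exact E_mkG _ _ _ _ _ u v
  obtain ⟨ry, hy1, hy2⟩ := build Y y hyr hwy
  obtain ⟨rz, hz1, hz2⟩ := build Z z hzr hwz
  refine ⟨ry, rz, ?_, ?_, ?_, ?_, ?_, ?_⟩
  · refine le_iff_E.2 ⟨?_, ?_⟩
    · intro x hx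
      rw [Cohen.mem_res_dom] at hx
      rw [hy1]
      exact Finset.mem_insert_of_mem (Finset.mem_filter.2 hx)
    · intro u hu v hv
      rw [Cohen.mem_res_dom] at hu hv
      rw [E_res, hy2]
      have hu' := Finset.mem_insert_of_mem (b := w) (Finset.mem_filter.2 hu)
      have hv' := Finset.mem_insert_of_mem (b := w) (Finset.mem_filter.2 hv)
      have e1 : u ≠ w := fun e => hwr (e ▸ hu.1)
      have e2 : v ≠ w := fun e => hwr (e ▸ hv.1)
      constructor
      · rintro ⟨_, h⟩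
        exact ⟨⟨hu', hv'⟩, Or.inl h⟩
      · rintro ⟨_, h | ⟨h, _⟩ | ⟨_, h⟩⟩
        · exact ⟨⟨hu.2, hv.2⟩, h⟩
        · exact absurd h e1
        · exact absurd h e2
  · rw [hy1]
    intro x hx
    rw [Finset.mem_coe, Finset.mem_insert, Finset.mem_filter] at hx
    rcases hx with rfl | hx
    · exact hwY
    · exact hx.2
  · refine le_iff_E.2 ⟨?_, ?_⟩
    · intro x hx
      rw [Cohen.mem_res_dom] at hx
      rw [hz1]
      exact Finset.mem_insert_of_mem (Finset.mem_filter.2 hx)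
    · intro u hu v hv
      rw [Cohen.mem_res_dom] at hu hv
      rw [E_res, hz2]
      have hu' := Finset.mem_insert_of_mem (b := w) (Finset.mem_filter.2 hu)
      have hv' := Finset.mem_insert_of_mem (b := w) (Finset.mem_filter.2 hv)
      have e1 : u ≠ w := fun e => hwr (e ▸ hu.1)
      have e2 : v ≠ w := fun e => hwr (e ▸ hv.1)
      constructor
      · rintro ⟨_, h⟩
        exact ⟨⟨hu', hv'⟩, Or.inl h⟩
      · rintro ⟨_, h | ⟨h, _⟩ | ⟨_, h⟩⟩
        · exact ⟨⟨hu.2, hv.2⟩, h⟩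
        · exact absurd h e1
        · exact absurd h e2
  · rw [hz1]
    intro x hx
    rw [Finset.mem_coe, Finset.mem_insert, Finset.mem_filter] at hx
    rcases hx with rfl | hx
    · exact hwZ
    · exact hx.2
  · have conv : ∀ x, x ∈ (Cohen.res KT_strong Y rz).dom → x ∈ (Cohen.res KT_strong Z ry).dom := by
      intro x hx
      rw [Cohen.mem_res_dom, hz1, Finset.mem_insert, Finset.mem_filter] at hx
      rw [Cohen.mem_res_dom, hy1, Finset.mem_insert, Finset.mem_filter]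
      rcases hx with ⟨rfl | hx, hx'⟩
      · exact ⟨Or.inl rfl, hwZ⟩
      · exact ⟨Or.inr ⟨hx.1, hx'⟩, hx.2⟩
    refine le_iff_E.2 ⟨conv, ?_⟩
    intro u hu v hv
    have hu' := conv u hu
    have hv' := conv v hv
    rw [Cohen.mem_res_dom, hz1] at hu hv
    rw [Cohen.mem_res_dom, hy1] at hu' hv'
    rw [E_res, E_res, hy2, hz2]
    have a1 : u ≠ z := fun e => hzY (e ▸ hu.2)
    have a2 : v ≠ z := fun e => hzY (e ▸ hv.2)
    have a3 : u ≠ y := fun e => hyZ (e ▸ hu'.2)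
    have a4 : v ≠ y := fun e => hyZ (e ▸ hv'.2)
    constructor
    · rintro ⟨_, _, h | ⟨_, h⟩ | ⟨h, _⟩⟩
      · exact ⟨⟨hu'.2, hv'.2⟩, ⟨hu'.1, hv'.1⟩, Or.inl h⟩
      · exact absurd h a2
      · exact absurd h a1
    · rintro ⟨_, _, h | ⟨_, h⟩ | ⟨h, _⟩⟩
      · exact ⟨⟨hu.2, hv.2⟩, ⟨hu.1, hv.1⟩, Or.inl h⟩
      · exact absurd h a4
      · exact absurd h a3
  · rintro ⟨x, hxy, hxz, hxp⟩
    obtain ⟨_, k1⟩ := le_iff_E.1 hxy
    obtain ⟨_, k2⟩ := le_iff_E.1 hxz
    obtain ⟨_, k3⟩ := le_iff_E.1 hxp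
    have w1 : w ∈ ry.dom := by rw [hy1]; exact Finset.mem_insert_self _ _
    have w2 : w ∈ rz.dom := by rw [hz1]; exact Finset.mem_insert_self _ _
    have y1 : y ∈ ry.dom := by
      rw [hy1]; exact Finset.mem_insert_of_mem (Finset.mem_filter.2 ⟨hyr, hyY⟩)
    have z1 : z ∈ rz.dom := by
      rw [hz1]; exact Finset.mem_insert_of_mem (Finset.mem_filter.2 ⟨hzr, hzZ⟩)
    have e1 : E x w y := (k1 w w1 y y1).1 ((hy2 w y).2 ⟨⟨hy1 ▸ w1, hy1 ▸ y1⟩, Or.inr (Or.inl ⟨rfl, rfl⟩)⟩)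
    have e2 : E x w z := (k2 w w2 z z1).1 ((hz2 w z).2 ⟨⟨hz1 ▸ w2, hz1 ▸ z1⟩, Or.inr (Or.inl ⟨rfl, rfl⟩)⟩)
    have e3 : E x y z := (k3 y (by simp [mkG]) z (by simp [mkG])).1
      ((E_mkG _ _ _ _ _ y z).2 ⟨⟨by simp, by simp⟩, Or.inl ⟨rfl, rfl⟩⟩)
    exact E_tri x e1 e3 e2

/-- For every set `X` of size at least `ℵ₂` the conjecture fails on `X`. -/
theorem main (X : Type) (hX : Cardinal.aleph 2 ≤ Cardinal.mk X) : Counterexample X := by
  have : Infinite X := by
    rw [Cardinal.infinite_iff]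
    exact (Cardinal.aleph0_le_aleph 2).trans hX
  refine ⟨Language.graph, LU, inferInstance, inferInstance, KT, KU, KT_strong, KU_strong,
    KT_nontrivial, KU_nontrivial, atMost_of KT (fun M hM => hM.1) X,
    atMost_of KU (fun M hM => hM) X, ?_⟩
  exact not_iso (Cohen.supp KT_strong X) (Cohen.supp KU_strong X) hX KU_compat KT_prop

/-- **MP_01c350_lc, Q1, disproved.** -/
theorem result : (∃ X : Type, Infinite X ∧ Counterexample X) ∧
    ∀ X : Type, Cardinal.aleph 2 ≤ Cardinal.mk X → Counterexample X := by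
  refine ⟨⟨(Cardinal.aleph 2).out, ?_, main _ (by simp)⟩, main⟩
  rw [Cardinal.infinite_iff]
  simp

end Pool.Agent.Results.MP_01c350_lc.TriangleFree
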